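import Pool.Agent.H84.Q2.Concrete

/-!
# MP_b478d8_an, Q2: there is no dimension-free constant, for any volume fraction below one half

`Per Ω E` is the relative perimeter of `E` in `Ω`, `IsIso Ω E α` says that `E` is an isoperimetric
set of volume fraction `α` relative to `Ω`, and `dens1 Ω E` is the canonical representative of `E`
(the points of `Ω` at which `E` has Lebesgue density one).  For every `α` in `(0, 1/2)` there is one
dimension `n` in which no positive constant `c(α, n)` exists; in particular there is no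
dimension-free constant `c(α)`.
-/

set_option autoImplicit false

open MeasureTheory Set Metric Filter Topology
open scoped ENNReal Real

noncomputable section

namespace Pool.Agent.Results.MP_b478d8_an.NoDimensionFreeConstant

/-- `Per Ω E` is the relative perimeter `P(E; Ω)`: the supremum of `∫_E div φ` over all `C¹` vector
fields `φ` with compact support in `Ω` and `|φ| ≤ 1` (the divergence is the trace of the
derivative). -/
def Per {n : ℕ} (Ω E : Set (EuclideanSpace ℝ (Fin n))) : ℝ≥0∞ :=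
  ⨆ (φ : EuclideanSpace ℝ (Fin n) → EuclideanSpace ℝ (Fin n))
    (_ : ContDiff ℝ 1 φ ∧ HasCompactSupport φ ∧ tsupport φ ⊆ Ω ∧ ∀ x, ‖φ x‖ ≤ 1),
    ENNReal.ofReal (∫ x in E, LinearMap.trace ℝ (EuclideanSpace ℝ (Fin n))
      (fderiv ℝ φ x).toLinearMap)

/-- `E` is an isoperimetric set of volume fraction `α` relative to `Ω`: a measurable subset of `Ω`
with `|E| = α |Ω|` whose relative perimeter is minimal among the measurable subsets of `Ω` of the
same volume. -/
structure IsIso {n : ℕ} (Ω E : Set (EuclideanSpace ℝ (Fin n))) (α : ℝ) : Prop where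
  meas : MeasurableSet E
  sub : E ⊆ Ω
  frac : volume E = ENNReal.ofReal α * volume Ω
  le : ∀ F : Set (EuclideanSpace ℝ (Fin n)), MeasurableSet F → F ⊆ Ω → volume F = volume E →
    Per Ω E ≤ Per Ω F

/-- The canonical representative: the points of `Ω` at which `E` has Lebesgue density `1`. -/
def dens1 {n : ℕ} (Ω E : Set (EuclideanSpace ℝ (Fin n))) : Set (EuclideanSpace ℝ (Fin n)) :=
  {x | x ∈ Ω ∧ Tendsto (fun r : ℝ => volume (E ∩ ball x r) / volume (ball x r)) (𝓝[>] 0) (𝓝 1)}

/-- For every `α ∈ (0, 1/2)` there is a dimension `n` such that for every `c > 0` some isoperimetric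
set of volume fraction `α` in some bounded open convex subset of `ℝⁿ` has a convex hull filling more
than the fraction `1 - c` of that convex set. -/
theorem result (α : ℝ) (hα0 : 0 < α) (hα1 : α < 1 / 2) :
    ∃ n : ℕ, 1 ≤ n ∧ ∀ c : ℝ, 0 < c → ∃ Ω E : Set (EuclideanSpace ℝ (Fin n)),
      IsOpen Ω ∧ Convex ℝ Ω ∧ Bornology.IsBounded Ω ∧ Ω.Nonempty ∧ IsIso Ω E α ∧ Per Ω E < ⊤ ∧
      ENNReal.ofReal (1 - c) * volume Ω < volume (convexHull ℝ (dens1 Ω E)) := by
  obtain ⟨n, hn, h⟩ := Pool.Agent.H84.Q2.main_body hα0 hα1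
  refine ⟨n, hn, fun c hc => ?_⟩
  rcases le_or_gt c 1 with hc1 | hc1
  · obtain ⟨Ω, E, h1, h2, h3, h4, h5, h6, h7⟩ := h c hc hc1
    exact ⟨Ω, E, h1, h2, h3, h4, ⟨h5.meas, h5.sub, h5.frac, h5.le⟩, h6, h7⟩
  · obtain ⟨Ω, E, h1, h2, h3, h4, h5, h6, h7⟩ := h 1 one_pos le_rfl
    refine ⟨Ω, E, h1, h2, h3, h4, ⟨h5.meas, h5.sub, h5.frac, h5.le⟩, h6, ?_⟩
    have e : ENNReal.ofReal (1 - c) = ENNReal.ofReal (1 - 1) := by
      rw [ENNReal.ofReal_of_nonpos (by linarith), sub_self, ENNReal.ofReal_zero]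
    rw [e]
    exact h7

end Pool.Agent.Results.MP_b478d8_an.NoDimensionFreeConstant
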